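import Mathlib

/-!
Counting lemma: the number of Boolean functions avoiding prescribed patterns on pairwise disjoint
small sets, and a greedy colour selection lemma.
-/

open Finset

namespace Pool.Agent.Work.MP_c7ad22_co

theorem count_avoid {E ι : Type*} [Fintype E] [DecidableEq E] [DecidableEq ι] (D : ℕ)
    (T : Finset ι) (S : ι → Finset E) (h : ι → E → Bool)
    (hS : ∀ t ∈ T, (S t).card ≤ D)
    (hdisj : ∀ t ∈ T, ∀ t' ∈ T, t ≠ t' → Disjoint (S t) (S t')) :
    (univ.filter (fun g : E → Bool => ∀ t ∈ T, ¬ ∀ e ∈ S t, g e = h t e)).card * (2 ^ D) ^ T.card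
      ≤ 2 ^ (Fintype.card E) * (2 ^ D - 1) ^ T.card := by
  classical
  induction T using Finset.induction_on with
  | empty => simp
  | insert t0 T ht0 ih =>
    have ih' := ih (fun t ht => hS t (mem_insert_of_mem ht))
      (fun t ht t' ht' hne => hdisj t (mem_insert_of_mem ht) t' (mem_insert_of_mem ht') hne)
    set B := univ.filter (fun g : E → Bool => ∀ t ∈ T, ¬ ∀ e ∈ S t, g e = h t e) with hB
    set Gd := B.filter (fun g => ∀ e ∈ S t0, g e = h t0 e) with hGd
    have hB' : univ.filter (fun g : E → Bool =>
        ∀ t ∈ insert t0 T, ¬ ∀ e ∈ S t, g e = h t e)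
        = B.filter (fun g => ¬ ∀ e ∈ S t0, g e = h t0 e) := by
      ext g
      simp only [hB, mem_filter, mem_univ, true_and, mem_insert, forall_eq_or_imp]
      tauto
    rw [hB']
    set B' := B.filter (fun g => ¬ ∀ e ∈ S t0, g e = h t0 e) with hB'def
    have hsum : Gd.card + B'.card = B.card :=
      Finset.card_filter_add_card_filter_not (s := B) (fun g => ∀ e ∈ S t0, g e = h t0 e)
    have hle : B.card ≤ Gd.card * 2 ^ D := by
      let φ : (E → Bool) → (E → Bool) × (↥(S t0) → Bool) :=
        fun g => (fun e => if e ∈ S t0 then h t0 e else g e, fun e => g e.1)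
      have hmaps : Set.MapsTo φ (B : Set (E → Bool))
          ((Gd ×ˢ (univ : Finset (↥(S t0) → Bool)) : Finset _) : Set _) := by
        intro g hg
        have hg' : ∀ t ∈ T, ¬ ∀ e ∈ S t, g e = h t e := by
          have := hg
          rw [hB] at this
          simpa using this
        rw [mem_coe, mem_product]
        refine ⟨?_, mem_univ _⟩
        rw [hGd, mem_filter, hB, mem_filter]
        refine ⟨⟨mem_univ _, ?_⟩, ?_⟩
        · intro t ht hall
          apply hg' t ht
          intro e he
          have hne : t ≠ t0 := fun h => ht0 (h ▸ ht)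
          have hd := hdisj t (mem_insert_of_mem ht) t0 (mem_insert_self _ _) hne
          have hnot : e ∉ S t0 := Finset.disjoint_left.1 hd he
          have := hall e he
          simpa [φ, hnot] using this
        · intro e he
          simp [φ, he]
      have hinj : Set.InjOn φ (B : Set (E → Bool)) := by
        intro g _ g' _ hgg
        funext e
        by_cases he : e ∈ S t0
        · have := congrFun (congrArg Prod.snd hgg) ⟨e, he⟩
          simpa [φ] using this
        · have := congrFun (congrArg Prod.fst hgg) e
          simpa [φ, he] using this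
      have h1 := Finset.card_le_card_of_injOn φ hmaps hinj
      rw [card_product] at h1
      have h2 : (univ : Finset (↥(S t0) → Bool)).card = 2 ^ (S t0).card := by
        simp
      rw [h2] at h1
      refine h1.trans (Nat.mul_le_mul_left _ ?_)
      exact Nat.pow_le_pow_right (by norm_num) (hS t0 (mem_insert_self _ _))
    have hpos : 1 ≤ 2 ^ D := Nat.one_le_two_pow
    have hkey : B'.card * 2 ^ D ≤ B.card * (2 ^ D - 1) := by
      have e1 : B.card * (2 ^ D - 1) + B.card = B.card * 2 ^ D := by
        obtain ⟨x, hx⟩ := Nat.exists_eq_add_of_le hpos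
        rw [hx]
        simp
        ring
      have e2 : B.card * 2 ^ D = Gd.card * 2 ^ D + B'.card * 2 ^ D := by
        rw [← hsum]; ring
      omega
    rw [card_insert_of_notMem ht0, pow_succ, pow_succ]
    calc B'.card * ((2 ^ D) ^ T.card * 2 ^ D)
        = (B'.card * 2 ^ D) * (2 ^ D) ^ T.card := by ring
      _ ≤ (B.card * (2 ^ D - 1)) * (2 ^ D) ^ T.card := Nat.mul_le_mul_right _ hkey
      _ = (B.card * (2 ^ D) ^ T.card) * (2 ^ D - 1) := by ring
      _ ≤ (2 ^ (Fintype.card E) * (2 ^ D - 1) ^ T.card) * (2 ^ D - 1) :=
          Nat.mul_le_mul_right _ ih'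
      _ = 2 ^ (Fintype.card E) * ((2 ^ D - 1) ^ T.card * (2 ^ D - 1)) := by ring

/-- Greedy selection: from a finite set of `n` colours with cost `T colour step`, pick the colours
one after the other so that each chosen colour is the cheapest remaining one at its step. -/
theorem greedy {α : Type*} [DecidableEq α] [Nonempty α] (n : ℕ) :
    ∀ (s : Finset α), s.card = n → ∀ T : α → ℕ → ℕ,
      ∃ σ : ℕ → α, (∀ j < n, σ j ∈ s) ∧ (∀ j < n, ∀ j' < n, σ j = σ j' → j = j') ∧
        ∀ j j', j < j' → j' < n → T (σ j) j ≤ T (σ j') j := by
  induction n with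
  | zero =>
    intro s hs T
    exact ⟨fun _ => Classical.arbitrary α, by simp, by simp, by omega⟩
  | succ n ih =>
    intro s hs T
    have hne : s.Nonempty := by
      rw [← Finset.card_pos]; omega
    obtain ⟨a, ha, hmin⟩ := Finset.exists_min_image s (fun a => T a 0) hne
    obtain ⟨σ, h1, h2, h3⟩ := ih (s.erase a) (by rw [card_erase_of_mem ha]; omega)
      (fun b j => T b (j + 1))
    refine ⟨fun j => Nat.casesOn j a σ, ?_, ?_, ?_⟩
    · intro j hj
      cases j with
      | zero => exact ha
      | succ j => exact mem_of_mem_erase (h1 j (by omega))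
    · intro j hj j' hj' heq
      cases j with
      | zero =>
        cases j' with
        | zero => rfl
        | succ j' =>
          exfalso
          have := h1 j' (by omega)
          simp only at heq
          rw [← heq] at this
          exact notMem_erase a s this
      | succ j =>
        cases j' with
        | zero =>
          exfalso
          have := h1 j (by omega)
          simp only at heq
          rw [heq] at this
          exact notMem_erase a s this
        | succ j' =>
          simp only at heq
          have := h2 j (by omega) j' (by omega) heq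
          omega
    · intro j j' hjj hj'
      cases j with
      | zero =>
        cases j' with
        | zero => omega
        | succ j' => exact hmin _ (mem_of_mem_erase (h1 j' (by omega)))
      | succ j =>
        cases j' with
        | zero => omega
        | succ j' => exact h3 j j' (by omega) (by omega)

end Pool.Agent.Work.MP_c7ad22_co
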