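import Mathlib
import Pool.Agent.Work.MP_c7ad22_co.Counting

/-!
Given any linear order of `Fin k × Fin N`, we find large blocks in the `k` colours, in order.
-/

open Finset

namespace Pool.Agent.Work.MP_c7ad22_co

theorem index_lt {k q M i a r : ℕ} (hi : i < k) (ha : a < q) (hr : r < M) :
    i * (q * M) + a * M + r < k * (q * M) := by
  have h1 : a * M + r < q * M := by
    calc a * M + r < a * M + M := by omega
      _ = (a + 1) * M := by ring
      _ ≤ q * M := Nat.mul_le_mul_right _ ha
  calc i * (q * M) + a * M + r < i * (q * M) + q * M := by omega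
    _ = (i + 1) * (q * M) := by ring
    _ ≤ k * (q * M) := Nat.mul_le_mul_right _ hi

theorem placement (k q M N : ℕ) (hk : 0 < k) (hq : 0 < q) (hM : 0 < M) (hN : N = k * (q * M))
    (pos : Fin k × Fin N → ℕ) (hpos : Function.Injective pos) :
    ∃ (σ : Fin k → Fin k) (x : Fin k → Fin q → Fin M → Fin N),
      Function.Injective σ ∧
      (∀ i a r a' r', x i a r = x i a' r' → a = a' ∧ r = r') ∧
      (∀ i a r i' a' r', (i < i' ∨ (i = i' ∧ a < a')) →
        pos (σ i, x i a r) < pos (σ i', x i' a' r')) := by
  classical
  have : Nonempty (Fin k) := ⟨⟨0, hk⟩⟩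
  have hqM : 0 < q * M := Nat.mul_pos hq hM
  let e : Fin k → Equiv.Perm (Fin N) := fun i => Tuple.sort (fun r => pos (i, r))
  have he : ∀ i, StrictMono (fun r => pos (i, e i r)) := by
    intro i
    have h1 : Monotone ((fun r => pos (i, r)) ∘ (e i)) := Tuple.monotone_sort _
    apply h1.strictMono_of_injective
    intro r r' h
    have := hpos h
    simpa using this
  let P : Fin k → ℕ → ℕ := fun i n => if h : n < N then pos (i, e i ⟨n, h⟩) else 0
  have hPmono : ∀ i n n', n < n' → n' < N → P i n < P i n' := by
    intro i n n' h h'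
    have hn : n < N := h.trans h'
    simp only [P, hn, h', dif_pos]
    exact he i (by simpa using h)
  have hPle : ∀ i n n', n ≤ n' → n' < N → P i n ≤ P i n' := by
    intro i n n' h h'
    rcases Nat.eq_or_lt_of_le h with h1 | h1
    · rw [h1]
    · exact (hPmono i n n' h1 h').le
  obtain ⟨σ', -, hσinj, hσT⟩ := greedy k (univ : Finset (Fin k)) (by simp)
    (fun i j => P i ((j + 1) * (q * M) - 1))
  have hidx : ∀ (i : Fin k) (a : Fin q) (r : Fin M),
      i.val * (q * M) + a.val * M + r.val < N := by
    intro i a r
    rw [hN]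
    exact index_lt i.2 a.2 r.2
  have hin : ∀ (a : Fin q) (r : Fin M), a.val * M + r.val < q * M := by
    intro a r
    calc a.val * M + r.val < a.val * M + M := by omega
      _ = (a.val + 1) * M := by ring
      _ ≤ q * M := Nat.mul_le_mul_right _ a.2
  have hpP : ∀ (i : Fin k) (c : Fin k) (a : Fin q) (r : Fin M),
      pos (c, e c ⟨i.val * (q * M) + a.val * M + r.val, hidx i a r⟩)
        = P c (i.val * (q * M) + a.val * M + r.val) := by
    intro i c a r
    simp only [P, hidx i a r, dif_pos]
  refine ⟨fun i => σ' i.val, fun i a r =>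
    e (σ' i.val) ⟨i.val * (q * M) + a.val * M + r.val, hidx i a r⟩, ?_, ?_, ?_⟩
  · intro i i' h
    exact Fin.ext (hσinj i.val i.2 i'.val i'.2 h)
  · intro i a r a' r' h
    have h1 := (e (σ' i.val)).injective h
    have h2 : i.val * (q * M) + a.val * M + r.val = i.val * (q * M) + a'.val * M + r'.val := by
      simpa using h1
    have h3 : a.val * M + r.val = a'.val * M + r'.val := by omega
    have h4 : a.val = a'.val := by
      have e1 : (a.val * M + r.val) / M = a.val := by
        rw [Nat.mul_comm, Nat.mul_add_div hM, Nat.div_eq_of_lt r.2]; simp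
      have e2 : (a'.val * M + r'.val) / M = a'.val := by
        rw [Nat.mul_comm, Nat.mul_add_div hM, Nat.div_eq_of_lt r'.2]; simp
      rw [← e1, ← e2, h3]
    refine ⟨Fin.ext h4, Fin.ext ?_⟩
    rw [h4] at h3
    omega
  · intro i a r i' a' r' hor
    show pos (σ' i.val, e (σ' i.val) ⟨i.val * (q * M) + a.val * M + r.val, hidx i a r⟩)
      < pos (σ' i'.val, e (σ' i'.val) ⟨i'.val * (q * M) + a'.val * M + r'.val, hidx i' a' r'⟩)
    rw [hpP i (σ' i.val) a r, hpP i' (σ' i'.val) a' r']
    rcases hor with hlt | ⟨rfl, hlt⟩
    · have hlt' : i.val < i'.val := hlt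
      have hb : (i.val + 1) * (q * M) ≤ i'.val * (q * M) := Nat.mul_le_mul_right _ hlt'
      have hb2 : (i.val + 1) * (q * M) = i.val * (q * M) + q * M := by ring
      have hi'N : i'.val * (q * M) + a'.val * M + r'.val < N := hidx i' a' r'
      have h1 : P (σ' i.val) (i.val * (q * M) + a.val * M + r.val)
          ≤ P (σ' i.val) ((i.val + 1) * (q * M) - 1) := by
        apply hPle
        · have := hin a r; omega
        · omega
      have h2 := hσT i.val i'.val hlt' i'.2
      have h3 : P (σ' i'.val) ((i.val + 1) * (q * M) - 1)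
          < P (σ' i'.val) (i'.val * (q * M) + a'.val * M + r'.val) := by
        apply hPmono
        · omega
        · exact hi'N
      omega
    · apply hPmono
      · have hlt' : a.val < a'.val := hlt
        have : (a.val + 1) * M ≤ a'.val * M := Nat.mul_le_mul_right _ hlt'
        have h2 : (a.val + 1) * M = a.val * M + M := by ring
        have := r.2
        omega
      · exact hidx i a' r'

end Pool.Agent.Work.MP_c7ad22_co
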