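import Mathlib
import Pool.Agent.Work.MP_c7ad22_co.Placement

/-!
For every `k`-partite pattern `H` on `Fin k × Fin q` there is a `k`-partite graph `G` such that for
every injective position function, `G` contains an induced copy of `H` in lexicographic order.
-/

open Finset

namespace Pool.Agent.Work.MP_c7ad22_co

/-- The `k`-partite graph given by a Boolean function on unordered pairs. -/
def Gr {k N : ℕ} (g : Sym2 (Fin k × Fin N) → Bool) : SimpleGraph (Fin k × Fin N) where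
  Adj u v := u.1 ≠ v.1 ∧ g s(u, v) = true
  symm := ⟨fun u v h => ⟨h.1.symm, by rw [Sym2.eq_swap]; exact h.2⟩⟩
  loopless := ⟨fun u h => h.1 rfl⟩

/-- For one fixed position function, the number of functions `g` with no good copy is small. -/
theorem bad_count (k q M N : ℕ) (hk : 0 < k) (hq : 0 < q) (hMp : M.Prime) (hkM : k ≤ M)
    (hN : N = k * (q * M)) (H : SimpleGraph (Fin k × Fin q))
    (hH : ∀ u v, H.Adj u v → u.1 ≠ v.1)
    (pos : Fin k × Fin N → ℕ) (hpos : Function.Injective pos) :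
    ∃ B : Finset (Sym2 (Fin k × Fin N) → Bool),
      B.card * (2 ^ ((k * q) * (k * q))) ^ (M * M)
        ≤ 2 ^ (Fintype.card (Sym2 (Fin k × Fin N))) * (2 ^ ((k * q) * (k * q)) - 1) ^ (M * M) ∧
      ∀ g, g ∉ B → ∃ φ : Fin k × Fin q → Fin k × Fin N,
        (∀ u v : Fin k × Fin q, (u.1 < v.1 ∨ (u.1 = v.1 ∧ u.2 < v.2)) → pos (φ u) < pos (φ v)) ∧
        ∀ u v, H.Adj u v ↔ (Gr g).Adj (φ u) (φ v) := by
  classical
  have : Fact M.Prime := ⟨hMp⟩
  have : NeZero M := ⟨hMp.ne_zero⟩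
  have hM : 0 < M := hMp.pos
  obtain ⟨σ, x, hσ, hx, hmono⟩ := placement k q M N hk hq hM hN pos hpos
  -- residues
  let res : ZMod M → Fin M := fun z => ⟨z.val, z.val_lt⟩
  have hres : Function.Injective res := by
    intro z z' h
    have : z.val = z'.val := by simpa [res] using h
    exact ZMod.val_injective M this
  let Pl : ZMod M × ZMod M → Fin k × Fin q → Fin k × Fin N :=
    fun t u => (σ u.1, x u.1 u.2 (res (t.1 + (u.1.val : ZMod M) * t.2)))
  have hPl : ∀ t t' u u', Pl t u = Pl t' u' →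
      u = u' ∧ t.1 + (u.1.val : ZMod M) * t.2 = t'.1 + (u.1.val : ZMod M) * t'.2 := by
    intro t t' u u' h
    have h1 : σ u.1 = σ u'.1 := congrArg Prod.fst h
    have h1' : u.1 = u'.1 := hσ h1
    have h2 : x u.1 u.2 (res (t.1 + (u.1.val : ZMod M) * t.2))
        = x u'.1 u'.2 (res (t'.1 + (u'.1.val : ZMod M) * t'.2)) := congrArg Prod.snd h
    rw [← h1'] at h2
    obtain ⟨h3, h4⟩ := hx _ _ _ _ _ h2
    exact ⟨Prod.ext h1' h3, hres h4⟩
  have hPlinj : ∀ t, Function.Injective (Pl t) := fun t u u' h => (hPl t t u u' h).1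
  -- the sets of pairs
  let pairs : Finset ((Fin k × Fin q) × (Fin k × Fin q)) := univ.filter (fun p => p.1.1 ≠ p.2.1)
  let S : ZMod M × ZMod M → Finset (Sym2 (Fin k × Fin N)) :=
    fun t => pairs.image (fun p => s(Pl t p.1, Pl t p.2))
  let h : ZMod M × ZMod M → Sym2 (Fin k × Fin N) → Bool :=
    fun t e => decide (∃ u v, e = s(Pl t u, Pl t v) ∧ H.Adj u v)
  have hScard : ∀ t ∈ (univ : Finset (ZMod M × ZMod M)), (S t).card ≤ (k * q) * (k * q) := by
    intro t _
    calc (S t).card ≤ pairs.card := card_image_le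
      _ ≤ (univ : Finset ((Fin k × Fin q) × (Fin k × Fin q))).card := card_filter_le _ _
      _ = (k * q) * (k * q) := by simp
  have hSdisj : ∀ t ∈ (univ : Finset (ZMod M × ZMod M)),
      ∀ t' ∈ (univ : Finset (ZMod M × ZMod M)), t ≠ t' → Disjoint (S t) (S t') := by
    intro t _ t' _ hne
    rw [Finset.disjoint_left]
    intro e he he'
    rw [mem_image] at he he'
    obtain ⟨⟨u, v⟩, hp, rfl⟩ := he
    obtain ⟨⟨u', v'⟩, hp', heq⟩ := he'
    have huv : u.1 ≠ v.1 := by simpa [pairs] using hp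
    apply hne
    -- a common argument
    have key : ∀ w w' : Fin k × Fin q, w = u → w' = v →
        t.1 + (w.1.val : ZMod M) * t.2 = t'.1 + (w.1.val : ZMod M) * t'.2 →
        t.1 + (w'.1.val : ZMod M) * t.2 = t'.1 + (w'.1.val : ZMod M) * t'.2 → t = t' := by
      intro w w' hw hw' e1 e2
      subst hw hw'
      have e3 : ((w.1.val : ZMod M) - (w'.1.val : ZMod M)) * (t.2 - t'.2) = 0 := by
        linear_combination e1 - e2
      rcases mul_eq_zero.1 e3 with h0 | h0
      · exfalso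
        apply huv
        have h1 : (w.1.val : ZMod M) = (w'.1.val : ZMod M) := sub_eq_zero.1 h0
        rw [ZMod.natCast_eq_natCast_iff'] at h1
        rw [Nat.mod_eq_of_lt (lt_of_lt_of_le w.1.2 hkM),
          Nat.mod_eq_of_lt (lt_of_lt_of_le w'.1.2 hkM)] at h1
        exact Fin.ext h1
      · have h1 : t.2 = t'.2 := sub_eq_zero.1 h0
        refine Prod.ext ?_ h1
        rw [h1] at e1
        exact add_right_cancel e1
    rw [Sym2.eq_iff] at heq
    rcases heq with ⟨ha, hb⟩ | ⟨ha, hb⟩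
    · obtain ⟨c1, c2⟩ := hPl _ _ _ _ ha.symm
      obtain ⟨c3, c4⟩ := hPl _ _ _ _ hb.symm
      exact key u v rfl rfl c2 c4
    · obtain ⟨c1, c2⟩ := hPl _ _ _ _ hb.symm
      obtain ⟨c3, c4⟩ := hPl _ _ _ _ ha.symm
      exact key u v rfl rfl c2 c4
  refine ⟨univ.filter (fun g : Sym2 (Fin k × Fin N) → Bool =>
    ∀ t ∈ (univ : Finset (ZMod M × ZMod M)), ¬ ∀ e ∈ S t, g e = h t e), ?_, ?_⟩
  · have := count_avoid ((k * q) * (k * q)) (univ : Finset (ZMod M × ZMod M)) S h hScard hSdisj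
    have hc : (univ : Finset (ZMod M × ZMod M)).card = M * M := by
      simp [ZMod.card]
    rw [hc] at this
    convert this using 2
    congr!
  · intro g hg
    rw [mem_filter] at hg
    push Not at hg
    obtain ⟨t, -, ht⟩ := hg (mem_univ _)
    refine ⟨Pl t, ?_, ?_⟩
    · intro u v huv
      exact hmono _ _ _ _ _ _ huv
    · intro u v
      constructor
      · intro hadj
        have hne := hH u v hadj
        refine ⟨fun hh => hne (hσ hh), ?_⟩
        have hmem : s(Pl t u, Pl t v) ∈ S t := by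
          rw [mem_image]
          exact ⟨(u, v), by simpa [pairs] using hne, rfl⟩
        rw [ht _ hmem]
        simp only [h, decide_eq_true_eq]
        exact ⟨u, v, rfl, hadj⟩
      · rintro ⟨hne, hgt⟩
        have hne' : u.1 ≠ v.1 := fun hh => hne (by simp only [Pl]; rw [hh])
        have hmem : s(Pl t u, Pl t v) ∈ S t := by
          rw [mem_image]
          exact ⟨(u, v), by simpa [pairs] using hne', rfl⟩
        rw [ht _ hmem] at hgt
        simp only [h, decide_eq_true_eq] at hgt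
        obtain ⟨u', v', heq, hadj⟩ := hgt
        rw [Sym2.eq_iff] at heq
        rcases heq with ⟨ha, hb⟩ | ⟨ha, hb⟩
        · rw [hPlinj t ha, hPlinj t hb]; exact hadj
        · rw [hPlinj t ha, hPlinj t hb]; exact hadj.symm

/-- The asymptotic inequality. -/
theorem asymp (C D : ℕ) (hD : 0 < D) : ∃ M0 : ℕ, ∀ M, M0 ≤ M →
    (C * M).factorial * (2 ^ D - 1) ^ (M * M) < (2 ^ D) ^ (M * M) := by
  have h2 : 2 ≤ 2 ^ D := by
    calc 2 = 2 ^ 1 := by norm_num
      _ ≤ 2 ^ D := Nat.pow_le_pow_right (by norm_num) hD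
  set Q : ℕ := 2 ^ D with hQ
  have hQ1 : (0 : ℝ) < (Q : ℝ) - 1 := by
    have : (2 : ℝ) ≤ Q := by exact_mod_cast h2
    linarith
  set r : ℝ := (Q : ℝ) / ((Q : ℝ) - 1) with hr
  have hr1 : 1 < r := by
    rw [hr, lt_div_iff₀ hQ1]; linarith
  have ht := tendsto_pow_const_div_const_pow_of_one_lt C hr1
  have hε : (0 : ℝ) < 1 / ((C : ℝ) ^ C + 1) := by positivity
  have hev := (ht.eventually (gt_mem_nhds hε)).and (Filter.eventually_ge_atTop 1)
  obtain ⟨M0, hM0⟩ := Filter.eventually_atTop.1 hev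
  refine ⟨M0, fun M hM => ?_⟩
  obtain ⟨hlt, hM1⟩ := hM0 M hM
  have hrpos : 0 < r ^ M := by positivity
  -- the key real inequality
  have hkey : ((C * M : ℕ) : ℝ) ^ C < r ^ M := by
    rw [div_lt_iff₀ hrpos] at hlt
    have hC0 : (0 : ℝ) ≤ (C : ℝ) ^ C := by positivity
    calc ((C * M : ℕ) : ℝ) ^ C = (C : ℝ) ^ C * (M : ℝ) ^ C := by push_cast; ring
      _ ≤ (C : ℝ) ^ C * (1 / ((C : ℝ) ^ C + 1) * r ^ M) :=
          mul_le_mul_of_nonneg_left hlt.le hC0
      _ = ((C : ℝ) ^ C / ((C : ℝ) ^ C + 1)) * r ^ M := by ring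
      _ < 1 * r ^ M := by
          apply mul_lt_mul_of_pos_right _ hrpos
          rw [div_lt_one (by positivity)]
          linarith
      _ = r ^ M := one_mul _
  have hkey2 : ((C * M : ℕ) : ℝ) ^ C * ((Q : ℝ) - 1) ^ M < (Q : ℝ) ^ M := by
    have hQM : 0 < ((Q : ℝ) - 1) ^ M := by positivity
    rw [hr, div_pow, lt_div_iff₀ hQM] at hkey
    exact hkey
  have hkey3 : (C * M) ^ C * (Q - 1) ^ M < Q ^ M := by
    have hcast : (((Q - 1 : ℕ)) : ℝ) = (Q : ℝ) - 1 := by
      rw [Nat.cast_sub (by omega)]; norm_num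
    have : (((C * M) ^ C * (Q - 1) ^ M : ℕ) : ℝ) < ((Q ^ M : ℕ) : ℝ) := by
      push_cast [hcast]
      push_cast at hkey2
      exact hkey2
    exact_mod_cast this
  calc (C * M).factorial * (Q - 1) ^ (M * M)
      ≤ (C * M) ^ (C * M) * (Q - 1) ^ (M * M) :=
        Nat.mul_le_mul_right _ (Nat.factorial_le_pow _)
    _ = ((C * M) ^ C * (Q - 1) ^ M) ^ M := by
        rw [mul_pow ((C * M) ^ C) _ M, ← pow_mul, ← pow_mul]
    _ < (Q ^ M) ^ M := Nat.pow_lt_pow_left hkey3 (by omega)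
    _ = Q ^ (M * M) := by rw [← pow_mul]

/-- Every `k`-partite pattern on `Fin k × Fin q` is unavoidable, in lexicographic order, in all
orderings of a suitable `k`-partite graph. -/
theorem ramsey (k q : ℕ) (hk : 0 < k) (hq : 0 < q) (H : SimpleGraph (Fin k × Fin q))
    (hH : ∀ u v, H.Adj u v → u.1 ≠ v.1) :
    ∃ (N : ℕ) (G : SimpleGraph (Fin k × Fin N)), (∀ u v, G.Adj u v → u.1 ≠ v.1) ∧
      ∀ c : (Fin k × Fin N) ≃ Fin (Fintype.card (Fin k × Fin N)),
        ∃ φ : Fin k × Fin q → Fin k × Fin N,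
          (∀ u v : Fin k × Fin q, (u.1 < v.1 ∨ (u.1 = v.1 ∧ u.2 < v.2)) → c (φ u) < c (φ v)) ∧
          ∀ u v, H.Adj u v ↔ G.Adj (φ u) (φ v) := by
  classical
  set D := (k * q) * (k * q) with hD
  have hDpos : 0 < D := Nat.mul_pos (Nat.mul_pos hk hq) (Nat.mul_pos hk hq)
  obtain ⟨M0, hM0⟩ := asymp (k * (k * q)) D hDpos
  obtain ⟨M, hMge, hMp⟩ := Nat.exists_infinite_primes (max M0 k)
  have hM0M : M0 ≤ M := (le_max_left _ _).trans hMge
  have hkM : k ≤ M := (le_max_right _ _).trans hMge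
  have hineq := hM0 M hM0M
  set N := k * (q * M) with hN
  have hbad : ∀ c : (Fin k × Fin N) ≃ Fin (Fintype.card (Fin k × Fin N)),
      ∃ B : Finset (Sym2 (Fin k × Fin N) → Bool),
      B.card * (2 ^ D) ^ (M * M)
        ≤ 2 ^ (Fintype.card (Sym2 (Fin k × Fin N))) * (2 ^ D - 1) ^ (M * M) ∧
      ∀ g, g ∉ B → ∃ φ : Fin k × Fin q → Fin k × Fin N,
        (∀ u v : Fin k × Fin q, (u.1 < v.1 ∨ (u.1 = v.1 ∧ u.2 < v.2)) →
          (c (φ u)).val < (c (φ v)).val) ∧
        ∀ u v, H.Adj u v ↔ (Gr g).Adj (φ u) (φ v) := by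
    intro c
    exact bad_count k q M N hk hq hMp hkM hN H hH (fun w => (c w).val)
      (fun u v h => c.injective (Fin.ext h))
  choose B hB1 hB2 using hbad
  -- union bound
  have hcard : ((univ : Finset ((Fin k × Fin N) ≃ Fin (Fintype.card (Fin k × Fin N)))).biUnion
      B).card < (univ : Finset (Sym2 (Fin k × Fin N) → Bool)).card := by
    have hn : Fintype.card (Fin k × Fin N) = k * (k * q) * M := by
      simp [hN]; ring
    have hperm : (univ : Finset ((Fin k × Fin N) ≃ Fin (Fintype.card (Fin k × Fin N)))).card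
        = (k * (k * q) * M).factorial := by
      rw [Finset.card_univ, Fintype.card_equiv (Fintype.equivFin _), hn]
    have hall : (univ : Finset (Sym2 (Fin k × Fin N) → Bool)).card
        = 2 ^ (Fintype.card (Sym2 (Fin k × Fin N))) := by
      simp
    have hpow : 0 < (2 ^ D) ^ (M * M) := by positivity
    have h1 : ((univ : Finset ((Fin k × Fin N) ≃ Fin (Fintype.card (Fin k × Fin N)))).biUnion
      B).card * (2 ^ D) ^ (M * M) < (univ : Finset (Sym2 (Fin k × Fin N) → Bool)).card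
        * (2 ^ D) ^ (M * M) := by
      calc ((univ : Finset ((Fin k × Fin N) ≃ Fin (Fintype.card (Fin k × Fin N)))).biUnion
          B).card * (2 ^ D) ^ (M * M)
          ≤ (∑ c : (Fin k × Fin N) ≃ Fin (Fintype.card (Fin k × Fin N)), (B c).card)
              * (2 ^ D) ^ (M * M) := Nat.mul_le_mul_right _ card_biUnion_le
        _ = ∑ c : (Fin k × Fin N) ≃ Fin (Fintype.card (Fin k × Fin N)),
              (B c).card * (2 ^ D) ^ (M * M) := by rw [Finset.sum_mul]
        _ ≤ ∑ _c : (Fin k × Fin N) ≃ Fin (Fintype.card (Fin k × Fin N)),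
              2 ^ (Fintype.card (Sym2 (Fin k × Fin N))) * (2 ^ D - 1) ^ (M * M) :=
            Finset.sum_le_sum (fun c _ => hB1 c)
        _ = (k * (k * q) * M).factorial *
              (2 ^ (Fintype.card (Sym2 (Fin k × Fin N))) * (2 ^ D - 1) ^ (M * M)) := by
            rw [Finset.sum_const, hperm, smul_eq_mul]
        _ = 2 ^ (Fintype.card (Sym2 (Fin k × Fin N))) *
              ((k * (k * q) * M).factorial * (2 ^ D - 1) ^ (M * M)) := by ring
        _ < 2 ^ (Fintype.card (Sym2 (Fin k × Fin N))) * (2 ^ D) ^ (M * M) :=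
            Nat.mul_lt_mul_of_pos_left hineq (by positivity)
        _ = _ := by rw [hall]
    exact lt_of_mul_lt_mul_right h1 (Nat.zero_le _)
  obtain ⟨g, -, hg⟩ := Finset.exists_mem_notMem_of_card_lt_card hcard
  refine ⟨N, Gr g, fun u v h => h.1, fun c => ?_⟩
  have hgc : g ∉ B c := fun hmem => hg (mem_biUnion.2 ⟨c, mem_univ _, hmem⟩)
  obtain ⟨φ, h1, h2⟩ := hB2 c g hgc
  exact ⟨φ, fun u v huv => h1 u v huv, h2⟩

end Pool.Agent.Work.MP_c7ad22_co
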